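import Pool.Agent.H7.SMP.Final

set_option autoImplicit false

namespace Pool.Agent.Results.MP_1d8377_an.NoSMP

open Pool.Agent.H7.SMP MeasureTheory
open scoped ENNReal

/-- In every dimension `N ≥ 1` (even `N = 0`) and for every nonempty connected open
`Ω ⊂ ℝ^N` there are `V` and `u ≢ 0` satisfying all the hypotheses, with `(V⁺)^{1/2} ∈ L^p(Ω)`
for all `1 ≤ p < 2` simultaneously. -/
theorem result (N : ℕ) (Ω : Set (EuclideanSpace ℝ (Fin N))) (hΩ : IsOpen Ω) (hc : IsConnected Ω) :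
    ∃ V u : EuclideanSpace ℝ (Fin N) → ℝ, Hyp Ω V u ∧ (∃ x ∈ Ω, u x ≠ 0) ∧
      ∀ p : ℝ≥0∞, 1 ≤ p → p < 2 →
        MemLp (fun x => Real.sqrt (max (V x) 0)) p (volume.restrict Ω) := by
  obtain ⟨x0, hx0⟩ := hc.nonempty
  obtain ⟨ε, hε, hball⟩ := Metric.isOpen_iff.1 hΩ x0 hx0
  have hr : 0 < ε / 2 := by linarith
  have hsub : Metric.closedBall x0 (ε / 2) ⊆ Ω :=
    (Metric.closedBall_subset_ball (by linarith)).trans hball
  obtain ⟨h1, h2⟩ := main x0 (ε / 2) hr Ω hΩ hsub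
  exact ⟨VV x0 (ε / 2), uu x0 (ε / 2), h1, ⟨x0, hx0, h2⟩, fun p hp1 hp2 =>
    (V_memLp x0 (ε / 2) hr p hp1 hp2).restrict Ω⟩

end Pool.Agent.Results.MP_1d8377_an.NoSMP
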